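import Mathlib

set_option autoImplicit false

/-!
# Catalan words: major index, peaks, high peaks (helper file)
-/

open Finset

namespace Pool.Agent.H210.CatMaj

/-- number of letters `b` among the first `p` letters -/
def cb (b : Bool) {m : ℕ} (w : Fin m → Bool) (p : ℕ) : ℕ :=
  ∑ k : Fin m, if (k : ℕ) < p ∧ w k = b then 1 else 0

/-- last letter (`false` for the empty word) -/
def lastb {m : ℕ} (w : Fin m → Bool) : Bool := if h : 0 < m then w ⟨m - 1, by omega⟩ else false

/-- ballot words -/
def good {m : ℕ} (w : Fin m → Bool) : Prop := ∀ p : ℕ, cb true w p ≤ cb false w p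

/-- a sum of positions -/
def st (χ : Bool → Bool → ℕ → ℕ → Bool) {m : ℕ} (w : Fin m → Bool) : ℕ :=
  ∑ i : Fin m, ∑ j : Fin m, if (j : ℕ) = i + 1 ∧
    χ (w i) (w j) (cb false w (i + 1)) (cb true w (i + 1)) = true then (i : ℕ) + 1 else 0

theorem cb_snoc (b : Bool) {m : ℕ} (w : Fin m → Bool) (e : Bool) (p : ℕ) :
    cb b (Fin.snoc w e : Fin (m + 1) → Bool) p = cb b w p + if m < p ∧ e = b then 1 else 0 := by
  unfold cb
  rw [Fin.sum_univ_castSucc]
  simp

theorem cb_snoc_le (b : Bool) {m : ℕ} (w : Fin m → Bool) (e : Bool) (p : ℕ) (hp : p ≤ m) :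
    cb b (Fin.snoc w e : Fin (m + 1) → Bool) p = cb b w p := by
  rw [cb_snoc, if_neg (by omega), add_zero]

theorem cb_ge (b : Bool) {m : ℕ} (w : Fin m → Bool) (p : ℕ) (hp : m ≤ p) :
    cb b w p = cb b w m := by
  unfold cb
  refine Finset.sum_congr rfl fun k _ => ?_
  have := k.isLt
  have h1 : ((k : ℕ) < p ∧ w k = b) ↔ ((k : ℕ) < m ∧ w k = b) := by
    constructor
    · rintro ⟨_, h⟩; exact ⟨this, h⟩
    · rintro ⟨_, h⟩; exact ⟨by omega, h⟩
  by_cases h : w k = b <;> simp [h]
  omega

theorem cb_add {m : ℕ} (w : Fin m → Bool) : cb false w m + cb true w m = m := by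
  unfold cb
  rw [← Finset.sum_add_distrib]
  have : ∀ k : Fin m, ((if (k : ℕ) < m ∧ w k = false then 1 else 0) +
      if (k : ℕ) < m ∧ w k = true then 1 else 0) = 1 := by
    intro k
    have := k.isLt
    cases h : w k <;> simp
  rw [Finset.sum_congr rfl fun k _ => this k]
  simp

theorem lastb_snoc {m : ℕ} (w : Fin m → Bool) (e : Bool) :
    lastb (Fin.snoc w e : Fin (m + 1) → Bool) = e := by
  unfold lastb
  rw [dif_pos (by omega)]
  have : (⟨m + 1 - 1, by omega⟩ : Fin (m + 1)) = Fin.last m := by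
    ext; simp
  rw [this, Fin.snoc_last]

theorem good_snoc {m : ℕ} (w : Fin m → Bool) (e : Bool) :
    good (Fin.snoc w e : Fin (m + 1) → Bool) ↔ good w ∧
      cb true w m + (if e = true then 1 else 0) ≤ cb false w m + (if e = false then 1 else 0) := by
  unfold good
  constructor
  · intro h
    constructor
    · intro p
      by_cases hp : p ≤ m
      · have := h p
        rwa [cb_snoc_le _ _ _ _ hp, cb_snoc_le _ _ _ _ hp] at this
      · rw [cb_ge _ w p (by omega), cb_ge _ w p (by omega)]
        have := h m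
        rwa [cb_snoc_le _ _ _ _ le_rfl, cb_snoc_le _ _ _ _ le_rfl] at this
    · have := h (m + 1)
      rw [cb_snoc, cb_snoc, cb_ge _ w (m + 1) (by omega), cb_ge _ w (m + 1) (by omega)] at this
      simpa using this
  · rintro ⟨h1, h2⟩ p
    by_cases hp : p ≤ m
    · rw [cb_snoc_le _ _ _ _ hp, cb_snoc_le _ _ _ _ hp]
      exact h1 p
    · rw [cb_snoc, cb_snoc, cb_ge _ w p (by omega), cb_ge _ w p (by omega)]
      simpa [show m < p by omega] using h2

theorem st_snoc (χ : Bool → Bool → ℕ → ℕ → Bool) {m : ℕ} (w : Fin m → Bool) (e : Bool) :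
    st χ (Fin.snoc w e : Fin (m + 1) → Bool) = st χ w +
      if χ (lastb w) e (cb false w m) (cb true w m) = true then m else 0 := by
  unfold st
  rw [Fin.sum_univ_castSucc]
  have hlast : ∑ j : Fin (m + 1), (if (j : ℕ) = ((Fin.last m : Fin (m + 1)) : ℕ) + 1 ∧
      χ ((Fin.snoc w e : Fin (m + 1) → Bool) (Fin.last m)) ((Fin.snoc w e : Fin (m + 1) → Bool) j)
        (cb false (Fin.snoc w e : Fin (m + 1) → Bool) (((Fin.last m : Fin (m + 1)) : ℕ) + 1))
        (cb true (Fin.snoc w e : Fin (m + 1) → Bool) (((Fin.last m : Fin (m + 1)) : ℕ) + 1)) = true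
      then ((Fin.last m : Fin (m + 1)) : ℕ) + 1 else 0) = 0 := by
    refine Finset.sum_eq_zero fun j _ => ?_
    rw [if_neg]
    rintro ⟨h, _⟩
    have := j.isLt
    simp at h
    omega
  rw [hlast, add_zero]
  have hin : ∀ i : Fin m, ∑ j : Fin (m + 1), (if (j : ℕ) = ((i.castSucc : Fin (m + 1)) : ℕ) + 1 ∧
      χ ((Fin.snoc w e : Fin (m + 1) → Bool) i.castSucc) ((Fin.snoc w e : Fin (m + 1) → Bool) j)
        (cb false (Fin.snoc w e : Fin (m + 1) → Bool) (((i.castSucc : Fin (m + 1)) : ℕ) + 1))
        (cb true (Fin.snoc w e : Fin (m + 1) → Bool) (((i.castSucc : Fin (m + 1)) : ℕ) + 1)) = true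
      then ((i.castSucc : Fin (m + 1)) : ℕ) + 1 else 0) =
      (∑ j : Fin m, if (j : ℕ) = i + 1 ∧
        χ (w i) (w j) (cb false w (i + 1)) (cb true w (i + 1)) = true then (i : ℕ) + 1 else 0) +
      if m = (i : ℕ) + 1 ∧ χ (w i) e (cb false w (i + 1)) (cb true w (i + 1)) = true
        then (i : ℕ) + 1 else 0 := by
    intro i
    have hi := i.isLt
    rw [Fin.sum_univ_castSucc]
    congr 1
    · refine Finset.sum_congr rfl fun j _ => ?_
      simp only [Fin.snoc_castSucc, Fin.val_castSucc]
      rw [cb_snoc_le _ _ _ _ (by omega), cb_snoc_le _ _ _ _ (by omega)]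
    · simp only [Fin.snoc_castSucc, Fin.val_castSucc, Fin.snoc_last, Fin.val_last]
      rw [cb_snoc_le _ _ _ _ (by omega), cb_snoc_le _ _ _ _ (by omega)]
  rw [Finset.sum_congr rfl fun i _ => hin i, Finset.sum_add_distrib]
  congr 1
  rcases m with _ | k
  · simp
  · rw [Finset.sum_eq_single (Fin.last k)]
    · have h1 : lastb w = w (Fin.last k) := by
        unfold lastb
        rw [dif_pos (by omega)]
        congr 1
      rw [h1]
      simp
    · intro i _ hi
      rw [if_neg]
      rintro ⟨h, _⟩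
      apply hi
      ext
      simp
      omega
    · intro h
      exact absurd (Finset.mem_univ _) h

open Classical in
/-- generating function of the ballot words with `a` letters `0` and `b` letters `1`, and last
letter `e` -/
noncomputable def S (χ : Bool → Bool → ℕ → ℕ → Bool) (q : ℝ) (m a b : ℕ) (e : Bool) : ℝ :=
  ∑ w : Fin m → Bool, if good w ∧ cb false w m = a ∧ cb true w m = b ∧ lastb w = e
    then q ^ st χ w else 0

theorem S_add (χ : Bool → Bool → ℕ → ℕ → Bool) (q : ℝ) (m a b : ℕ) :
    S χ q m a b false + S χ q m a b true = by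
      classical
      exact ∑ w : Fin m → Bool, if good w ∧ cb false w m = a ∧ cb true w m = b
        then q ^ st χ w else 0 := by
  classical
  unfold S
  rw [← Finset.sum_add_distrib]
  refine Finset.sum_congr rfl fun w _ => ?_
  by_cases h : good w ∧ cb false w m = a ∧ cb true w m = b
  · obtain ⟨h1, h2, h3⟩ := h
    cases h4 : lastb w <;> simp [h1, h2, h3]
  · rw [if_neg h, if_neg (fun h' => h ⟨h'.1, h'.2.1, h'.2.2.1⟩),
      if_neg (fun h' => h ⟨h'.1, h'.2.1, h'.2.2.1⟩), add_zero]

theorem sum_snoc {m : ℕ} (F : (Fin (m + 1) → Bool) → ℝ) :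
    ∑ w : Fin (m + 1) → Bool, F w = ∑ w : Fin m → Bool, F (Fin.snoc w false) +
      ∑ w : Fin m → Bool, F (Fin.snoc w true) := by
  rw [← (Fin.snocEquiv (fun _ : Fin (m + 1) => Bool)).sum_comp, Fintype.sum_prod_type]
  rw [Fintype.sum_bool, add_comm]
  rfl

theorem S_succ_false (χ : Bool → Bool → ℕ → ℕ → Bool) (q : ℝ) (m a b : ℕ) :
    S χ q (m + 1) (a + 1) b false =
      S χ q m a b false * q ^ (if χ false false a b = true then m else 0) +
      S χ q m a b true * q ^ (if χ true false a b = true then m else 0) := by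
  classical
  unfold S
  rw [sum_snoc]
  have h2 : ∑ w : Fin m → Bool, (if good (Fin.snoc w true : Fin (m + 1) → Bool) ∧
      cb false (Fin.snoc w true : Fin (m + 1) → Bool) (m + 1) = a + 1 ∧
      cb true (Fin.snoc w true : Fin (m + 1) → Bool) (m + 1) = b ∧
      lastb (Fin.snoc w true : Fin (m + 1) → Bool) = false
      then q ^ st χ (Fin.snoc w true : Fin (m + 1) → Bool) else 0) = 0 := by
    refine Finset.sum_eq_zero fun w _ => ?_
    rw [lastb_snoc, if_neg]
    simp
  rw [h2, add_zero, Finset.sum_mul, Finset.sum_mul, ← Finset.sum_add_distrib]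
  refine Finset.sum_congr rfl fun w _ => ?_
  rw [lastb_snoc, good_snoc, cb_snoc, cb_snoc, st_snoc, cb_ge false w (m + 1) (by omega),
    cb_ge true w (m + 1) (by omega)]
  by_cases hg : good w
  · by_cases ha : cb false w m = a
    · by_cases hb : cb true w m = b
      · have hle : b ≤ a := by
          have := hg m
          omega
        cases h4 : lastb w
        · simp [hg, ha, hb, pow_add]
          intro h; omega
        · simp [hg, ha, hb, pow_add]
          intro h; omega
      · simp [hb]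
    · simp [ha]
  · simp [hg]

theorem S_succ_true (χ : Bool → Bool → ℕ → ℕ → Bool) (q : ℝ) (m a b : ℕ) (hab : b + 1 ≤ a) :
    S χ q (m + 1) a (b + 1) true =
      S χ q m a b false * q ^ (if χ false true a b = true then m else 0) +
      S χ q m a b true * q ^ (if χ true true a b = true then m else 0) := by
  classical
  unfold S
  rw [sum_snoc]
  have h2 : ∑ w : Fin m → Bool, (if good (Fin.snoc w false : Fin (m + 1) → Bool) ∧
      cb false (Fin.snoc w false : Fin (m + 1) → Bool) (m + 1) = a ∧
      cb true (Fin.snoc w false : Fin (m + 1) → Bool) (m + 1) = b + 1 ∧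
      lastb (Fin.snoc w false : Fin (m + 1) → Bool) = true
      then q ^ st χ (Fin.snoc w false : Fin (m + 1) → Bool) else 0) = 0 := by
    refine Finset.sum_eq_zero fun w _ => ?_
    rw [lastb_snoc, if_neg]
    simp
  rw [h2, zero_add, Finset.sum_mul, Finset.sum_mul, ← Finset.sum_add_distrib]
  refine Finset.sum_congr rfl fun w _ => ?_
  rw [lastb_snoc, good_snoc, cb_snoc, cb_snoc, st_snoc, cb_ge false w (m + 1) (by omega),
    cb_ge true w (m + 1) (by omega)]
  by_cases hg : good w
  · by_cases ha : cb false w m = a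
    · by_cases hb : cb true w m = b
      · cases h4 : lastb w
        · simp [hg, ha, hb, pow_add]
          intro h; omega
        · simp [hg, ha, hb, pow_add]
          intro h; omega
      · simp [hb]
    · simp [ha]
  · simp [hg]

theorem S_lt (χ : Bool → Bool → ℕ → ℕ → Bool) (q : ℝ) (m a b : ℕ) (e : Bool) (hab : a < b) :
    S χ q m a b e = 0 := by
  classical
  unfold S
  refine Finset.sum_eq_zero fun w _ => ?_
  rw [if_neg]
  rintro ⟨h1, h2, h3, _⟩
  have := h1 m
  omega

theorem S_ne (χ : Bool → Bool → ℕ → ℕ → Bool) (q : ℝ) (m a b : ℕ) (e : Bool) (hab : a + b ≠ m) :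
    S χ q m a b e = 0 := by
  classical
  unfold S
  refine Finset.sum_eq_zero fun w _ => ?_
  rw [if_neg]
  rintro ⟨h1, h2, h3, _⟩
  have := cb_add w
  omega

theorem S_true_zero (χ : Bool → Bool → ℕ → ℕ → Bool) (q : ℝ) (m a : ℕ) :
    S χ q m a 0 true = 0 := by
  classical
  rcases m with _ | m
  · unfold S
    refine Finset.sum_eq_zero fun w _ => ?_
    rw [if_neg]
    rintro ⟨_, _, _, h⟩
    simp [lastb] at h
  · unfold S
    rw [sum_snoc]
    have h1 : ∀ (e : Bool) (w : Fin m → Bool), (if good (Fin.snoc w e : Fin (m + 1) → Bool) ∧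
      cb false (Fin.snoc w e : Fin (m + 1) → Bool) (m + 1) = a ∧
      cb true (Fin.snoc w e : Fin (m + 1) → Bool) (m + 1) = 0 ∧
      lastb (Fin.snoc w e : Fin (m + 1) → Bool) = true
      then q ^ st χ (Fin.snoc w e : Fin (m + 1) → Bool) else 0) = 0 := by
      intro e w
      rw [if_neg]
      rintro ⟨_, _, h3, h4⟩
      rw [lastb_snoc] at h4
      rw [cb_snoc, h4] at h3
      simp at h3
    simp only [h1, Finset.sum_const_zero, add_zero]

theorem S_zero (χ : Bool → Bool → ℕ → ℕ → Bool) (q : ℝ) :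
    S χ q 0 0 0 false = 1 := by
  classical
  unfold S
  simp [good, cb, lastb, st]

/-! ### The closed form -/

/-- the recursion satisfied by the generating functions -/
structure Rec (q : ℝ) (N : ℕ → ℕ → ℝ) : Prop where
  zero : ∀ a, N a 0 = 1
  diag : ∀ a, N (a + 1) (a + 1) = N (a + 1) a
  step : ∀ a b, b < a → N (a + 1) (b + 1) = N a (b + 1) + N (a + 1) b -
    (1 - q ^ (a + b + 1)) * N a b

/-- `(q - 1)(q^2 - 1) ⋯ (q^n - 1)` -/
def F (q : ℝ) (n : ℕ) : ℝ := ∏ i ∈ range n, (q ^ (i + 1) - 1)

theorem F_succ (q : ℝ) (n : ℕ) : F q (n + 1) = F q n * (q ^ (n + 1) - 1) :=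
  Finset.prod_range_succ _ _

theorem F_zero (q : ℝ) : F q 0 = 1 := Finset.prod_range_zero _

theorem closed (q : ℝ) (N : ℕ → ℕ → ℝ) (h : Rec q N) : ∀ n a b : ℕ, a + b = n → b ≤ a →
    N a b * (F q (a + 1) * F q b) = F q (a + b) * (q ^ (a + 1) - q ^ (b + 1) + q - 1) := by
  intro n
  induction n using Nat.strong_induction_on with
  | _ n ih =>
    intro a b hn hab
    rcases b with _ | b
    · rw [h.zero, F_zero, F_succ]
      simp
    · rcases a with _ | a
      · omega
      · rcases Nat.lt_or_ge b a with hb | hb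
        · have h1 := ih (a + (b + 1)) (by omega) a (b + 1) rfl (by omega)
          have h2 := ih (a + 1 + b) (by omega) (a + 1) b rfl (by omega)
          have h3 := ih (a + b) (by omega) a b rfl (by omega)
          rw [h.step a b hb]
          rw [show a + (b + 1) = a + b + 1 by ring] at h1
          rw [show a + 1 + b = a + b + 1 by ring] at h2
          rw [show a + 1 + (b + 1) = a + b + 1 + 1 by ring]
          rw [F_succ q (a + 1), F_succ q b, F_succ q (a + b + 1)]
          rw [F_succ q b] at h1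
          rw [F_succ q (a + 1)] at h2
          rw [F_succ q (a + b)] at h1 h2 ⊢
          have e1 : (N a (b + 1) + N (a + 1) b - (1 - q ^ (a + b + 1)) * N a b) *
              (F q (a + 1) * (q ^ (a + 1 + 1) - 1) * (F q b * (q ^ (b + 1) - 1))) =
              N a (b + 1) * (F q (a + 1) * (F q b * (q ^ (b + 1) - 1))) * (q ^ (a + 1 + 1) - 1) +
              N (a + 1) b * (F q (a + 1) * (q ^ (a + 1 + 1) - 1) * F q b) * (q ^ (b + 1) - 1) -
              (1 - q ^ (a + b + 1)) * (N a b * (F q (a + 1) * F q b)) * (q ^ (a + 1 + 1) - 1) *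
                (q ^ (b + 1) - 1) := by ring
          rw [e1, h1, h2, h3]
          ring
        · have hba : b = a := by omega
          subst hba
          have h2 := ih (b + 1 + b) (by omega) (b + 1) b rfl (by omega)
          rw [h.diag]
          rw [show b + 1 + (b + 1) = b + 1 + b + 1 by ring]
          rw [F_succ q b, F_succ q (b + 1 + b)]
          rw [F_succ q (b + 1), F_succ q b] at h2 ⊢
          have e1 : N (b + 1) b * (F q b * (q ^ (b + 1) - 1) * (q ^ (b + 1 + 1) - 1) *
              (F q b * (q ^ (b + 1) - 1))) =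
              (N (b + 1) b * (F q b * (q ^ (b + 1) - 1) * (q ^ (b + 1 + 1) - 1) * F q b)) *
              (q ^ (b + 1) - 1) := by ring
          rw [e1, h2]
          ring

theorem F_inv (q : ℝ) (hq : q ≠ 0) (n : ℕ) :
    F q⁻¹ n * q ^ (∑ i ∈ range n, (i + 1)) = (-1) ^ n * F q n := by
  unfold F
  rw [← Finset.prod_pow_eq_pow_sum, ← Finset.prod_mul_distrib, ← Finset.card_range n,
    ← Finset.prod_const, Finset.card_range n, ← Finset.prod_mul_distrib]
  refine Finset.prod_congr rfl fun i _ => ?_
  rw [sub_mul, inv_pow, inv_mul_cancel₀ (pow_ne_zero _ hq)]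
  ring

theorem F_ne (q : ℝ) (hq : 1 < q) (n : ℕ) : F q n ≠ 0 := by
  unfold F
  rw [Finset.prod_ne_zero_iff]
  intro i _
  have : 1 < q ^ (i + 1) := one_lt_pow₀ hq (by omega)
  exact ne_of_gt (by linarith)

theorem tri (n : ℕ) : 2 * ∑ i ∈ range n, (i + 1) = n * (n + 1) := by
  induction n with
  | zero => simp
  | succ n ih =>
    rw [Finset.sum_range_succ, mul_add, ih]
    ring

/-- the symmetry `q ↔ 1/q` -/
theorem symm (q : ℝ) (hq : 1 < q) (N N' : ℕ → ℕ → ℝ) (h : Rec q N) (h' : Rec q⁻¹ N') (n : ℕ) :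
    N' n n * q ^ (2 * n * n + n) = N n n * q ^ (n * n + 2 * n) := by
  have hq0 : q ≠ 0 := by linarith
  have h1 := closed q N h (n + n) n n rfl le_rfl
  have h2 := closed q⁻¹ N' h' (n + n) n n rfl le_rfl
  have f1 := F_inv q hq0 (n + 1)
  have f2 := F_inv q hq0 n
  have f3 := F_inv q hq0 (n + n)
  have t1 := tri (n + 1)
  have t2 := tri n
  have t3 := tri (n + n)
  set A := ∑ i ∈ range (n + 1), (i + 1)
  set B := ∑ i ∈ range n, (i + 1)
  set C := ∑ i ∈ range (n + n), (i + 1)
  have hC : C = 2 * n * n + n := by nlinarith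
  have hAB : A + B = n * n + 2 * n + 1 := by nlinarith
  have hne : F q (n + 1) * F q n ≠ 0 := mul_ne_zero (F_ne q hq _) (F_ne q hq _)
  have h3 : N' n n * q ^ C * (q ^ (A + B) * (F q⁻¹ (n + 1) * F q⁻¹ n)) =
      (F q⁻¹ (n + n) * q ^ C) * ((q⁻¹ - 1) * q) * q ^ (n * n + 2 * n) := by
    have : q ^ (A + B) = q * q ^ (n * n + 2 * n) := by rw [hAB]; ring
    calc N' n n * q ^ C * (q ^ (A + B) * (F q⁻¹ (n + 1) * F q⁻¹ n))
        = (N' n n * (F q⁻¹ (n + 1) * F q⁻¹ n)) * q ^ C * q ^ (A + B) := by ring
      _ = _ := by rw [h2, this]; ring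
  have h4 : q ^ (A + B) * (F q⁻¹ (n + 1) * F q⁻¹ n) = - (F q (n + 1) * F q n) := by
    calc q ^ (A + B) * (F q⁻¹ (n + 1) * F q⁻¹ n)
        = (F q⁻¹ (n + 1) * q ^ A) * (F q⁻¹ n * q ^ B) := by rw [pow_add]; ring
      _ = (-1) ^ (n + 1) * F q (n + 1) * ((-1) ^ n * F q n) := by rw [f1, f2]
      _ = ((-1 : ℝ) ^ n * (-1) ^ n) * (- (F q (n + 1) * F q n)) := by ring
      _ = _ := by
        rw [← mul_pow]
        simp
  have h5 : (q⁻¹ - 1) * q = - (q - 1) := by
    rw [sub_mul, inv_mul_cancel₀ hq0]
    ring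
  rw [h4, f3, h5] at h3
  have h6 : (-1 : ℝ) ^ (n + n) = 1 := by
    rw [← two_mul, pow_mul]
    simp
  rw [h6, one_mul] at h3
  have h7 : N n n * (F q (n + 1) * F q n) = F q (n + n) * (q - 1) := by
    rw [h1]
    ring
  have h8 : N' n n * q ^ C * (F q (n + 1) * F q n) =
      N n n * q ^ (n * n + 2 * n) * (F q (n + 1) * F q n) := by
    calc N' n n * q ^ C * (F q (n + 1) * F q n)
        = - (N' n n * q ^ C * (- (F q (n + 1) * F q n))) := by ring
      _ = (F q (n + n) * (q - 1)) * q ^ (n * n + 2 * n) := by rw [h3]; ring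
      _ = _ := by rw [← h7]; ring
  have h9 := mul_right_cancel₀ hne h8
  rw [hC] at h9
  exact h9

/-! ### The three statistics -/

/-- valleys -/
def χV : Bool → Bool → ℕ → ℕ → Bool := fun x y _ _ => x && !y

/-- peaks -/
def χP : Bool → Bool → ℕ → ℕ → Bool := fun x y _ _ => !x && y

/-- high peaks -/
def χH : Bool → Bool → ℕ → ℕ → Bool := fun x y a b => !x && y && decide (b + 2 ≤ a)

/-- the generating function of the words with `a` zeros and `b` ones -/
noncomputable def N (χ : Bool → Bool → ℕ → ℕ → Bool) (q : ℝ) (a b : ℕ) : ℝ :=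
  S χ q (a + b) a b false + S χ q (a + b) a b true

theorem N_zero (χ : Bool → Bool → ℕ → ℕ → Bool) (q : ℝ) (hχ : ∀ a b, χ false false a b = false)
    (a : ℕ) : N χ q a 0 = 1 := by
  unfold N
  rw [add_zero, S_true_zero, add_zero]
  induction a with
  | zero => exact S_zero χ q
  | succ a ih =>
    rw [S_succ_false, S_true_zero, hχ, ih]
    simp

theorem rec_V (q : ℝ) : Rec q (N χV q) := by
  have hT : ∀ a b, b + 1 ≤ a → S χV q (a + b + 1) a (b + 1) true = N χV q a b := by
    intro a b hab
    rw [S_succ_true _ _ _ _ _ hab]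
    simp [χV, N]
  refine ⟨N_zero _ _ (by simp [χV]), ?_, ?_⟩
  · intro a
    have h1 := hT (a + 1) a le_rfl
    conv_lhs => unfold N
    rw [show a + 1 + (a + 1) = a + 1 + a + 1 by ring, h1, S_succ_false, S_lt _ _ _ _ _ _ (by omega),
      S_lt _ _ _ _ _ _ (by omega)]
    simp
  · intro a b hb
    have h1 := hT (a + 1) b (by omega)
    have h2 := hT a b (by omega)
    have h3 : N χV q a (b + 1) = S χV q (a + b + 1) a (b + 1) false + N χV q a b := by
      rw [← h2]
      rfl
    have h4 : N χV q (a + 1) (b + 1) = S χV q (a + 1 + (b + 1)) (a + 1) (b + 1) false +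
        S χV q (a + 1 + (b + 1)) (a + 1) (b + 1) true := rfl
    rw [h4, show a + 1 + (b + 1) = a + 1 + b + 1 by ring, h1, S_succ_false,
      show a + 1 + b = a + b + 1 by ring, h2, h3]
    simp [χV]
    ring

theorem rec_H (q : ℝ) : Rec q (N χH q) := by
  have hT : ∀ a b, S χH q (a + b + 1) (a + 1) b false = N χH q a b := by
    intro a b
    rw [S_succ_false]
    simp [χH, N]
  refine ⟨N_zero _ _ (by simp [χH]), ?_, ?_⟩
  · intro a
    conv_lhs => unfold N
    rw [show a + 1 + (a + 1) = a + 1 + a + 1 by ring, S_succ_true _ _ _ _ _ (by omega),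
      S_succ_false, S_lt _ _ _ _ _ _ (by omega), S_lt _ _ _ _ _ _ (by omega)]
    simp [χH, N]
  · intro a b hb
    have h1 := hT a b
    have h2 := hT a (b + 1)
    have h3 : N χH q (a + 1) b = N χH q a b + S χH q (a + b + 1) (a + 1) b true := by
      rw [← h1, show a + b + 1 = a + 1 + b by ring]
      rfl
    have h4 : N χH q (a + 1) (b + 1) = S χH q (a + 1 + (b + 1)) (a + 1) (b + 1) false +
        S χH q (a + 1 + (b + 1)) (a + 1) (b + 1) true := rfl
    rw [h4, show a + 1 + (b + 1) = a + (b + 1) + 1 by ring, h2, S_succ_true _ _ _ _ _ (by omega),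
      show a + (b + 1) = a + b + 1 by ring, h1, h3]
    have h5 : χH false true (a + 1) b = true := by
      simp [χH]
      omega
    rw [h5]
    simp [χH]
    ring

theorem S_PV (q : ℝ) : ∀ m a b : ℕ, S χP q m a b false * q ^ b = S χV q m a b false ∧
    S χP q m a b true = q ^ a * S χV q m a b true := by
  intro m
  induction m with
  | zero =>
    intro a b
    rcases Nat.eq_zero_or_pos (a + b) with h | h
    · have ha : a = 0 := by omega
      have hb : b = 0 := by omega
      subst ha hb
      rw [S_zero, S_zero, S_true_zero, S_true_zero]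
      simp
    · rw [S_ne _ _ _ _ _ _ (by omega), S_ne _ _ _ _ _ _ (by omega), S_ne _ _ _ _ _ _ (by omega),
        S_ne _ _ _ _ _ _ (by omega)]
      simp
  | succ m ih =>
    intro a b
    by_cases hm : a + b = m + 1
    · constructor
      · rcases a with _ | a
        · rw [S_lt _ _ _ _ _ _ (by omega), S_lt _ _ _ _ _ _ (by omega)]
          simp
        · have h1 := (ih a b).1
          have h2 := (ih a b).2
          rw [S_succ_false, S_succ_false]
          simp only [χP, χV]
          simp only [Bool.not_false, Bool.not_true, Bool.and_false, Bool.and_true, Bool.true_and,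
            Bool.false_and, if_true, if_false, Bool.false_eq_true, pow_zero, mul_one]
          rw [add_mul, h1, h2, show m = a + b by omega, pow_add]
          ring
      · rcases b with _ | b
        · rw [S_true_zero, S_true_zero]
          simp
        · rcases Nat.lt_or_ge a (b + 1) with hb | hb
          · rw [S_lt _ _ _ _ _ _ hb, S_lt _ _ _ _ _ _ hb]
            simp
          · have h1 := (ih a b).1
            have h2 := (ih a b).2
            rw [S_succ_true _ _ _ _ _ hb, S_succ_true _ _ _ _ _ hb]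
            simp only [χP, χV]
            simp only [Bool.not_false, Bool.not_true, Bool.and_false, Bool.and_true, Bool.true_and,
              Bool.false_and, if_true, if_false, Bool.false_eq_true, pow_zero, mul_one]
            rw [h2, ← h1, show m = a + b by omega, pow_add]
            ring
    · rw [S_ne _ _ _ _ _ _ hm, S_ne _ _ _ _ _ _ hm, S_ne _ _ _ _ _ _ hm, S_ne _ _ _ _ _ _ hm]
      simp

theorem N_PV (q : ℝ) (n : ℕ) : N χP q n n = q ^ n * N χV q n n := by
  rcases n with _ | n
  · rw [N_zero _ _ (by simp [χP]), N_zero _ _ (by simp [χV])]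
    simp
  · have h := S_PV q (n + 1 + (n + 1)) (n + 1) (n + 1)
    have h0 : ∀ χ, S χ q (n + 1 + (n + 1)) (n + 1) (n + 1) false = 0 := by
      intro χ
      rw [show n + 1 + (n + 1) = n + 1 + n + 1 by ring, S_succ_false, S_lt _ _ _ _ _ _ (by omega),
        S_lt _ _ _ _ _ _ (by omega)]
      simp
    unfold N
    rw [h0, h0, h.2]
    ring

end Pool.Agent.H210.CatMaj
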