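import Mathlib
import Pool.Agent.H210.CatMaj

set_option autoImplicit false

/-!
# Linear extensions of two-column posets and Catalan words (helper file)
-/

open Finset

namespace Pool.Agent.H210.CatLE

open Pool.Agent.H210.CatMaj

/-- linear extension; the class `c` selects which parity comes first -/
def LE (s c : ℕ) (π : Equiv.Perm (Fin (s * 2))) : Prop :=
  ∀ a b, (π b : ℕ) / 2 ≤ (π a : ℕ) / 2 → ((π a : ℕ) + c) % 2 ≤ ((π b : ℕ) + c) % 2 → a ≤ b

/-- the word of a permutation -/
def wd (s c : ℕ) (π : Equiv.Perm (Fin (s * 2))) : Fin (s * 2) → Bool :=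
  fun p => decide (((π p : ℕ) + c) % 2 = 1)

theorem cb_card (b : Bool) {m : ℕ} (w : Fin m → Bool) (p : ℕ) :
    cb b w p = (univ.filter fun k : Fin m => (k : ℕ) < p ∧ w k = b).card := by
  unfold cb
  rw [Finset.card_filter]

theorem cb_succ (b : Bool) {m : ℕ} (w : Fin m → Bool) (p : Fin m) :
    cb b w (p + 1) = cb b w p + if w p = b then 1 else 0 := by
  unfold cb
  have h : ∀ k : Fin m, (if (k : ℕ) < p + 1 ∧ w k = b then 1 else 0) =
      (if (k : ℕ) < p ∧ w k = b then 1 else 0) + if k = p then (if w p = b then 1 else 0) else 0 := by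
    intro k
    by_cases hk : k = p
    · subst hk
      simp
    · have hk' : (k : ℕ) ≠ p := fun h => hk (Fin.ext h)
      have : ((k : ℕ) < p + 1) ↔ ((k : ℕ) < p) := by omega
      simp [this, hk]
  rw [Finset.sum_congr rfl fun k _ => h k, Finset.sum_add_distrib]
  simp

theorem cb_mono (b : Bool) {m : ℕ} (w : Fin m → Bool) {p p' : ℕ} (h : p ≤ p') :
    cb b w p ≤ cb b w p' := by
  rw [cb_card, cb_card]
  refine Finset.card_le_card fun k hk => ?_
  simp only [Finset.mem_filter, Finset.mem_univ, true_and] at hk ⊢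
  exact ⟨lt_of_lt_of_le hk.1 h, hk.2⟩

theorem cb_lt {m : ℕ} (w : Fin m → Bool) (p : Fin m) {p' : ℕ} (h : (p : ℕ) < p') :
    cb (w p) w p + 1 ≤ cb (w p) w p' := by
  have h1 := cb_succ (w p) w p
  rw [if_pos rfl] at h1
  rw [← h1]
  exact cb_mono _ _ h

theorem wd_iff {s c : ℕ} {π : Equiv.Perm (Fin (s * 2))} (i j : Fin (s * 2)) :
    wd s c π i = wd s c π j ↔ (π i : ℕ) % 2 = (π j : ℕ) % 2 := by
  unfold wd
  rw [decide_eq_decide]
  omega

theorem cb_wd {s c : ℕ} {π : Equiv.Perm (Fin (s * 2))} (h : LE s c π) (p : Fin (s * 2)) :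
    cb (wd s c π p) (wd s c π) p + 1 + (π p : ℕ) / 2 = s := by
  have hp := (π p).isLt
  have hc : (univ.filter fun k : Fin (s * 2) => (k : ℕ) < p ∧ wd s c π k = wd s c π p).card =
      (Finset.Ioo ((π p : ℕ) / 2) s).card := by
    refine Finset.card_bij (fun k _ => (π k : ℕ) / 2) ?_ ?_ ?_
    · intro k hk
      simp only [Finset.mem_filter, Finset.mem_univ, true_and, wd_iff] at hk
      have hk' := (π k).isLt
      rw [Finset.mem_Ioo]
      refine ⟨?_, by omega⟩
      by_contra hcon
      have := h p k (by omega) (by omega)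
      have : (p : ℕ) ≤ k := this
      omega
    · intro k hk k' hk' hkk
      simp only [Finset.mem_filter, Finset.mem_univ, true_and, wd_iff] at hk hk'
      apply π.injective
      ext
      omega
    · intro v hv
      rw [Finset.mem_Ioo] at hv
      refine ⟨π.symm ⟨2 * v + (π p : ℕ) % 2, by omega⟩, ?_, ?_⟩
      · simp only [Finset.mem_filter, Finset.mem_univ, true_and, wd_iff]
        have h1 : (π (π.symm ⟨2 * v + (π p : ℕ) % 2, by omega⟩) : ℕ) = 2 * v + (π p : ℕ) % 2 := by
          simp
        refine ⟨?_, by omega⟩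
        have h2 := h (π.symm ⟨2 * v + (π p : ℕ) % 2, by omega⟩) p (by omega) (by omega)
        refine lt_of_le_of_ne h2 fun he => ?_
        rw [Fin.ext he] at h1
        omega
      · simp
        omega
  rw [cb_card, hc, Nat.card_Ioo]
  omega

theorem cb_all {s c : ℕ} (π : Equiv.Perm (Fin (s * 2))) (b : Bool) :
    cb b (wd s c π) (s * 2) = s := by
  obtain ⟨r, hr, hrb⟩ : ∃ r : ℕ, r < 2 ∧ ∀ x : ℕ, (decide ((x + c) % 2 = 1) = b ↔ x % 2 = r) := by
    cases b
    · refine ⟨c % 2, by omega, fun x => ?_⟩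
      rw [decide_eq_false_iff_not]
      omega
    · refine ⟨(c + 1) % 2, by omega, fun x => ?_⟩
      rw [decide_eq_true_iff]
      omega
  have hc : (univ.filter fun k : Fin (s * 2) => (k : ℕ) < s * 2 ∧ wd s c π k = b).card =
      (Finset.range s).card := by
    refine Finset.card_bij (fun k _ => (π k : ℕ) / 2) ?_ ?_ ?_
    · intro k _
      have hk' := (π k).isLt
      rw [Finset.mem_range]
      omega
    · intro k hk k' hk' hkk
      simp only [Finset.mem_filter, Finset.mem_univ, true_and, wd, hrb] at hk hk'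
      apply π.injective
      ext
      omega
    · intro v hv
      rw [Finset.mem_range] at hv
      refine ⟨π.symm ⟨2 * v + r, by omega⟩, ?_, ?_⟩
      · simp only [Finset.mem_filter, Finset.mem_univ, true_and, wd, hrb]
        refine ⟨(π.symm ⟨2 * v + r, by omega⟩).isLt, ?_⟩
        simp
        omega
      · simp
        omega
  rw [cb_card, hc, Finset.card_range]

theorem good_wd {s c : ℕ} {π : Equiv.Perm (Fin (s * 2))} (h : LE s c π) : good (wd s c π) := by
  intro p
  rw [cb_card, cb_card]
  have hlt : ∀ x : Fin (s * 2), 2 * ((x : ℕ) / 2) + (1 - (x : ℕ) % 2) < s * 2 := by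
    intro x
    have := x.isLt
    omega
  refine Finset.card_le_card_of_injOn (fun k => π.symm ⟨_, hlt (π k)⟩) ?_ ?_
  · intro k hk
    simp only [Finset.coe_filter, Finset.mem_univ, true_and, Set.mem_setOf_eq, wd,
      decide_eq_true_iff, decide_eq_false_iff_not] at hk ⊢
    have h1 : (π (π.symm ⟨_, hlt (π k)⟩) : ℕ) =
        2 * ((π k : ℕ) / 2) + (1 - (π k : ℕ) % 2) := by simp
    have h2 := h (π.symm ⟨_, hlt (π k)⟩) k (by omega) (by omega)
    refine ⟨lt_of_le_of_lt h2 hk.1, by omega⟩
  · intro k hk k' hk' hkk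
    simp only [Finset.coe_filter, Finset.mem_univ, true_and, Set.mem_setOf_eq, wd,
      decide_eq_true_iff] at hk hk'
    have h1 := π.symm.injective hkk
    rw [Fin.mk.injEq] at h1
    apply π.injective
    ext
    omega

theorem wd_inj {s c : ℕ} {π π' : Equiv.Perm (Fin (s * 2))} (h : LE s c π) (h' : LE s c π')
    (hw : wd s c π = wd s c π') : π = π' := by
  ext p
  have h1 := cb_wd h p
  have h2 := cb_wd h' p
  rw [hw] at h1
  have h3 := congrFun hw p
  unfold wd at h3
  rw [decide_eq_decide] at h3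
  omega

theorem wd_surj {s c : ℕ} (w : Fin (s * 2) → Bool) (hg : good w) (h0 : cb false w (s * 2) = s)
    (h1 : cb true w (s * 2) = s) : ∃ π : Equiv.Perm (Fin (s * 2)), LE s c π ∧ wd s c π = w := by
  have hb : ∀ b, cb b w (s * 2) = s := by
    intro b
    cases b <;> assumption
  have hlt : ∀ p : Fin (s * 2), cb (w p) w p + 1 ≤ s := by
    intro p
    have := cb_lt w p p.isLt
    rw [hb] at this
    exact this
  have hf : ∀ p : Fin (s * 2),
      2 * (s - 1 - cb (w p) w p) + ((if w p = true then 1 else 0) + c) % 2 < s * 2 := by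
    intro p
    have := hlt p
    omega
  let f : Fin (s * 2) → Fin (s * 2) := fun p => ⟨_, hf p⟩
  have hfv : ∀ p, (f p : ℕ) =
      2 * (s - 1 - cb (w p) w p) + ((if w p = true then 1 else 0) + c) % 2 := fun p => rfl
  have hbit : ∀ p, (w p = true ↔ ((f p : ℕ) + c) % 2 = 1) := by
    intro p
    rw [hfv]
    by_cases hp : w p = true
    · rw [if_pos hp]
      constructor
      · intro _; omega
      · intro _; exact hp
    · rw [if_neg hp]
      constructor
      · intro h; exact absurd h hp
      · intro h; omega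
  have hdiv : ∀ p, cb (w p) w p + 1 + (f p : ℕ) / 2 = s := by
    intro p
    have := hlt p
    rw [hfv]
    omega
  have hsame : ∀ p p', w p = w p' → cb (w p) w p = cb (w p') w p' → p = p' := by
    intro p p' h2 h3
    by_contra hne
    have hne' : (p : ℕ) ≠ p' := fun h => hne (Fin.ext h)
    rcases Nat.lt_or_gt_of_ne hne' with h4 | h4
    · have := cb_lt w p h4
      rw [← h2] at h3
      omega
    · have := cb_lt w p' h4
      rw [h2] at h3
      omega
  have hinj : Function.Injective f := by
    intro p p' hpp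
    have h2 : (f p : ℕ) = f p' := by rw [hpp]
    apply hsame
    · rw [Bool.eq_iff_iff, hbit, hbit, h2]
    · have := hdiv p
      have := hdiv p'
      omega
  let π : Equiv.Perm (Fin (s * 2)) := Equiv.ofBijective f (Finite.injective_iff_bijective.1 hinj)
  have hπ : ∀ p, (π p : ℕ) = f p := fun p => rfl
  refine ⟨π, ?_, ?_⟩
  · intro a b h2 h3
    rw [hπ, hπ] at h2 h3
    have ha := hdiv a
    have hb' := hdiv b
    by_contra hcon
    have hba : (b : ℕ) < a := not_le.1 hcon
    by_cases hwa : w a = true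
    · have h4 := (hbit a).1 hwa
      have hwb : w b = true := (hbit b).2 (by omega)
      have := cb_lt w b hba
      rw [hwa] at ha
      rw [hwb] at this hb'
      omega
    · have hwa' : w a = false := by simpa using hwa
      by_cases hwb : w b = true
      · have h5 := hg (b + 1)
        have h6 := cb_succ true w b
        rw [if_pos hwb] at h6
        have h7 := cb_mono false w (show (b : ℕ) + 1 ≤ a from hba)
        rw [hwa'] at ha
        rw [hwb] at hb'
        omega
      · have hwb' : w b = false := by simpa using hwb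
        have := cb_lt w b hba
        rw [hwa'] at ha
        rw [hwb'] at this hb'
        omega
  · funext p
    unfold wd
    rw [hπ, Bool.eq_iff_iff, decide_eq_true_iff]
    exact (hbit p).symm

theorem avoids {s c : ℕ} {π : Equiv.Perm (Fin (s * 2))} (h : LE s c π) (i j k : Fin (s * 2))
    (hij : i < j) (hjk : j < k) : ¬ (π i < π j ∧ π j < π k) := by
  rintro ⟨h1, h2⟩
  have h1' : (π i : ℕ) < π j := h1
  have h2' : (π j : ℕ) < π k := h2
  have key : ∀ a b : Fin (s * 2), a < b → (π a : ℕ) < π b →
      (π a : ℕ) % 2 ≠ (π b : ℕ) % 2 := by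
    intro a b hab h3 h4
    have := h b a (by omega) (by omega)
    exact absurd hab (not_lt.2 this)
  have k1 := key i j hij h1'
  have k2 := key j k hjk h2'
  have k3 := key i k (hij.trans hjk) (h1'.trans h2')
  omega

/-- the sum of all positions `1, …, m - 1` -/
theorem sum_all (m : ℕ) :
    2 * (∑ i : Fin m, ∑ j : Fin m, if (j : ℕ) = i + 1 then (i : ℕ) + 1 else 0) + m = m * m := by
  induction m with
  | zero => simp
  | succ m ih =>
    have h : (∑ i : Fin (m + 1), ∑ j : Fin (m + 1), if (j : ℕ) = i + 1 then (i : ℕ) + 1 else 0) =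
        (∑ i : Fin m, ∑ j : Fin m, if (j : ℕ) = i + 1 then (i : ℕ) + 1 else 0) + m := by
      rw [Fin.sum_univ_castSucc]
      have hlast : ∑ j : Fin (m + 1), (if (j : ℕ) = ((Fin.last m : Fin (m + 1)) : ℕ) + 1
          then ((Fin.last m : Fin (m + 1)) : ℕ) + 1 else 0) = 0 := by
        refine Finset.sum_eq_zero fun j _ => ?_
        rw [if_neg]
        have := j.isLt
        simp
        omega
      rw [hlast, add_zero]
      have hin : ∀ i : Fin m, ∑ j : Fin (m + 1), (if (j : ℕ) = ((i.castSucc : Fin (m + 1)) : ℕ) + 1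
          then ((i.castSucc : Fin (m + 1)) : ℕ) + 1 else 0) =
          (∑ j : Fin m, if (j : ℕ) = i + 1 then (i : ℕ) + 1 else 0) +
          if m = (i : ℕ) + 1 then (i : ℕ) + 1 else 0 := by
        intro i
        rw [Fin.sum_univ_castSucc]
        rfl
      rw [Finset.sum_congr rfl fun i _ => hin i, Finset.sum_add_distrib]
      congr 1
      rcases m with _ | k
      · simp
      · rw [Finset.sum_eq_single (Fin.last k)]
        · simp
        · intro i _ hi
          rw [if_neg]
          intro h
          apply hi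
          ext
          simp
          omega
        · intro h
          exact absurd (Finset.mem_univ _) h
    rw [h]
    nlinarith

/-- ascents of a linear extension, `c = 0` -/
theorem asc_P {s : ℕ} {π : Equiv.Perm (Fin (s * 2))} (h : LE s 0 π) (i j : Fin (s * 2))
    (hij : (j : ℕ) = i + 1) : π i < π j ↔ χP (wd s 0 π i) (wd s 0 π j)
      (cb false (wd s 0 π) (i + 1)) (cb true (wd s 0 π) (i + 1)) = true := by
  have hi := cb_wd h i
  have hj := cb_wd h j
  have s0 := cb_succ false (wd s 0 π) i
  have s1 := cb_succ true (wd s 0 π) i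
  have g := good_wd h i
  have g' := good_wd h (i + 1)
  rw [hij] at hj
  have wi : wd s 0 π i = decide (((π i : ℕ) + 0) % 2 = 1) := rfl
  have wj : wd s 0 π j = decide (((π j : ℕ) + 0) % 2 = 1) := rfl
  rw [Fin.lt_def]
  unfold χP
  cases e1 : wd s 0 π i <;> cases e2 : wd s 0 π j <;>
    rw [e1] at hi wi s0 s1 <;> rw [e2] at hj wj <;>
    simp only [eq_comm (a := false), eq_comm (a := true), decide_eq_true_iff,
      decide_eq_false_iff_not] at wi wj <;> simp at s0 s1 ⊢ <;> omega

/-- ascents of a linear extension, `c = 1` -/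
theorem asc_H {s : ℕ} {π : Equiv.Perm (Fin (s * 2))} (h : LE s 1 π) (i j : Fin (s * 2))
    (hij : (j : ℕ) = i + 1) : π i < π j ↔ χH (wd s 1 π i) (wd s 1 π j)
      (cb false (wd s 1 π) (i + 1)) (cb true (wd s 1 π) (i + 1)) = true := by
  have hi := cb_wd h i
  have hj := cb_wd h j
  have s0 := cb_succ false (wd s 1 π) i
  have s1 := cb_succ true (wd s 1 π) i
  have g := good_wd h i
  have g' := good_wd h (i + 1)
  rw [hij] at hj
  have wi : wd s 1 π i = decide (((π i : ℕ) + 1) % 2 = 1) := rfl
  have wj : wd s 1 π j = decide (((π j : ℕ) + 1) % 2 = 1) := rfl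
  rw [Fin.lt_def]
  unfold χH
  cases e1 : wd s 1 π i <;> cases e2 : wd s 1 π j <;>
    rw [e1] at hi wi s0 s1 <;> rw [e2] at hj wj <;>
    simp only [eq_comm (a := false), eq_comm (a := true), decide_eq_true_iff,
      decide_eq_false_iff_not] at wi wj <;> simp at s0 s1 ⊢ <;> omega

/-- the bijection -/
theorem sum_LE (s c : ℕ) (f : (Fin (s * 2) → Bool) → ℝ) : (by
    classical
    exact ∑ π ∈ univ.filter (fun π : Equiv.Perm (Fin (s * 2)) => LE s c π), f (wd s c π)) = (by
    classical
    exact ∑ w ∈ univ.filter (fun w : Fin (s * 2) → Bool =>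
      good w ∧ cb false w (s * 2) = s ∧ cb true w (s * 2) = s), f w) := by
  classical
  refine Finset.sum_bij (fun π _ => wd s c π) ?_ ?_ ?_ ?_
  · intro π hπ
    simp only [Finset.mem_filter, Finset.mem_univ, true_and] at hπ ⊢
    exact ⟨good_wd hπ, cb_all π _, cb_all π _⟩
  · intro π hπ π' hπ' hw
    simp only [Finset.mem_filter, Finset.mem_univ, true_and] at hπ hπ'
    exact wd_inj hπ hπ' hw
  · intro w hw
    simp only [Finset.mem_filter, Finset.mem_univ, true_and] at hw
    obtain ⟨π, h1, h2⟩ := wd_surj (c := c) w hw.1 hw.2.1 hw.2.2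
    exact ⟨π, by simpa using h1, h2⟩
  · intro π _
    rfl

theorem N_eq (χ : Bool → Bool → ℕ → ℕ → Bool) (q : ℝ) (s : ℕ) : N χ q s s = (by
    classical
    exact ∑ w ∈ univ.filter (fun w : Fin (s * 2) → Bool =>
      good w ∧ cb false w (s * 2) = s ∧ cb true w (s * 2) = s), q ^ st χ w) := by
  classical
  unfold N
  rw [← mul_two, S_add, Finset.sum_filter]

theorem N_eq' (χ : Bool → Bool → ℕ → ℕ → Bool) (q : ℝ) (s : ℕ) : N χ q s s = (by
    classical
    exact ∑ w ∈ univ.filter (fun w : Fin (2 * s) → Bool =>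
      good w ∧ cb false w (2 * s) = s ∧ cb true w (2 * s) = s), q ^ st χ w) := by
  classical
  unfold N
  rw [← two_mul, S_add, Finset.sum_filter]

/-- maj of a word or of a permutation -/
def maj {m : ℕ} {α : Type} [LinearOrder α] (w : Fin m → α) : ℕ :=
  ∑ i : Fin m, ∑ j : Fin m, if (j : ℕ) = i + 1 ∧ w j < w i then (i : ℕ) + 1 else 0

theorem maj_add {s c : ℕ} {π : Equiv.Perm (Fin (s * 2))} (χ : Bool → Bool → ℕ → ℕ → Bool)
    (h : ∀ i j : Fin (s * 2), (j : ℕ) = i + 1 → (π i < π j ↔ χ (wd s c π i) (wd s c π j)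
      (cb false (wd s c π) (i + 1)) (cb true (wd s c π) (i + 1)) = true)) :
    maj π + st χ (wd s c π) = 2 * s * s - s := by
  have h1 : maj π + st χ (wd s c π) =
      ∑ i : Fin (s * 2), ∑ j : Fin (s * 2), if (j : ℕ) = i + 1 then (i : ℕ) + 1 else 0 := by
    unfold maj st
    rw [← Finset.sum_add_distrib]
    refine Finset.sum_congr rfl fun i _ => ?_
    rw [← Finset.sum_add_distrib]
    refine Finset.sum_congr rfl fun j _ => ?_
    by_cases hij : (j : ℕ) = i + 1
    · have h2 := h i j hij
      by_cases h3 : π i < π j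
      · rw [if_neg (fun h' => absurd h'.2 (not_lt.2 h3.le)), if_pos ⟨hij, h2.1 h3⟩, if_pos hij,
          zero_add]
      · have h4 : π j < π i := by
          refine lt_of_le_of_ne (not_lt.1 h3) fun he => ?_
          have := congrArg Fin.val (π.injective he)
          omega
        rw [if_pos ⟨hij, h4⟩, if_neg (fun h' => h3 (h2.2 h'.2)), if_pos hij, add_zero]
    · rw [if_neg (fun h' => hij h'.1), if_neg (fun h' => hij h'.1), if_neg hij]
  have h2 := sum_all (s * 2)
  rw [← h1] at h2
  have h3 : s * 2 * (s * 2) = 2 * (2 * s * s) := by ring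
  omega

theorem maj_word {m : ℕ} (w : Fin m → Bool) : maj w = st χV w := by
  unfold maj st
  refine Finset.sum_congr rfl fun i _ => Finset.sum_congr rfl fun j _ => ?_
  have : (w j < w i) ↔ χV (w i) (w j) (cb false w (i + 1)) (cb true w (i + 1)) = true := by
    unfold χV
    cases w i <;> cases w j <;> simp
  simp only [this]

/-- generating function of the linear extensions -/
theorem sum_maj {s c : ℕ} (χ : Bool → Bool → ℕ → ℕ → Bool)
    (h : ∀ π : Equiv.Perm (Fin (s * 2)), LE s c π → ∀ i j : Fin (s * 2), (j : ℕ) = i + 1 →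
      (π i < π j ↔ χ (wd s c π i) (wd s c π j)
        (cb false (wd s c π) (i + 1)) (cb true (wd s c π) (i + 1)) = true)) (q : ℝ) (hq : q ≠ 0) :
    (by
      classical
      exact ∑ π ∈ univ.filter (fun π : Equiv.Perm (Fin (s * 2)) => LE s c π), q ^ maj π) =
      q ^ (2 * s * s - s) * N χ q⁻¹ s s := by
  classical
  rw [N_eq, ← sum_LE s c, Finset.mul_sum]
  refine Finset.sum_congr rfl fun π hπ => ?_
  simp only [Finset.mem_filter, Finset.mem_univ, true_and] at hπ
  rw [← maj_add χ (h π hπ), pow_add, mul_assoc, inv_pow, mul_inv_cancel₀ (pow_ne_zero _ hq),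
    mul_one]

end Pool.Agent.H210.CatLE
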